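import Mathlib
import Pool.Agent.H10.TriHull

set_option autoImplicit false

namespace Pool.Agent.Results.MP_9d21cc_co.HullArea

open MeasureTheory

/-- If every triangle `x i, x j, x k` has area (half the absolute determinant) at least that of
the triangle `y i, y j, y k`, then the convex hull of the `x i` has area at least that of the
convex hull of the `y i`. No condition on distances is needed. -/
theorem result (n : ℕ) (x y : Fin n → EuclideanSpace ℝ (Fin 2))
    (hT : ∀ i j k : Fin n, i ≤ j → j ≤ k →
      |(y j 0 - y i 0) * (y k 1 - y i 1) - (y j 1 - y i 1) * (y k 0 - y i 0)| / 2 ≤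
      |(x j 0 - x i 0) * (x k 1 - x i 1) - (x j 1 - x i 1) * (x k 0 - x i 0)| / 2) :
    volume (convexHull ℝ (Set.range y)) ≤ volume (convexHull ℝ (Set.range x)) := by
  have h := Pool.Agent.H10.TriHull.main x y (Pool.Agent.H10.TriHull.all_of_sorted x y
    (fun i j k hij hjk => by
      have := hT i j k hij hjk
      unfold Pool.Agent.H10.Plane.o
      linarith)) Finset.univ
  simpa using h

end Pool.Agent.Results.MP_9d21cc_co.HullArea
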